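import Pool.Agent.H309.DF.Stm

/-!
# Project DF (helper309), L14: shift in time
-/

set_option autoImplicit false

open Set Filter Topology MeasureTheory
open scoped ENNReal ContDiff

namespace Pool.Agent.H227.DF

open Pool.Agent.Q61.NC Pool.Agent.H309.DF

theorem tcont {a : ℝ} {f : ℝ → ℝ} {V Vt Vy : ℝ → ℝ → ℝ} (h : OddFlow a f V Vt Vy) :
    ContinuousOn (fun q : ℝ × ℝ => Vt q.1 q.2) (Dom (2 * a)) := by
  have h1 : ContinuousOn (fun q : ℝ × ℝ => fderiv ℝ (fun q : ℝ × ℝ => V q.1 q.2) q (1, 0))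
      (Dom (2 * a)) :=
    (h.smooth.continuousOn_fderiv_of_isOpen (isOpen_Dom _) (by simp)).clm_apply continuousOn_const
  refine h1.congr fun q hq => ?_
  obtain ⟨t, y⟩ := q
  have hd : DifferentiableAt ℝ (fun q : ℝ × ℝ => V q.1 q.2) (t, y) :=
    (h.smooth.differentiableOn (by simp)).differentiableAt ((isOpen_Dom _).mem_nhds hq)
  have h2 : HasDerivAt (fun s : ℝ => (s, y)) ((1 : ℝ), (0 : ℝ)) t :=
    (hasDerivAt_id t).prodMk (hasDerivAt_const t y)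
  have h3 : HasDerivAt (fun s : ℝ => V s y)
      (fderiv ℝ (fun q : ℝ × ℝ => V q.1 q.2) (t, y) (1, 0)) t :=
    HasFDerivAt.comp_hasDerivAt (l := fun q : ℝ × ℝ => V q.1 q.2) t hd.hasFDerivAt h2
  exact (h.dt t y hq.1 hq.2).unique h3

theorem maps {a α τ : ℝ} (ha : 0 < a) (hα : 0 < α) :
    MapsTo (fun z : ℝ × ℝ => (z.1 + α, z.2)) (Icc 0 τ ×ˢ Icc (-a) a) (Dom (2 * a)) := by
  rintro ⟨t, y⟩ ⟨ht, hy⟩
  simp only [mem_Icc] at ht hy
  refine ⟨by show 0 < t + α; linarith [ht.1], ?_⟩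
  show |y| < 2 * a
  rw [abs_lt]
  constructor <;> linarith [hy.1, hy.2]

theorem shiftC {a α τ : ℝ} (ha : 0 < a) (hα : 0 < α) {F : ℝ → ℝ → ℝ}
    (hF : ContinuousOn (fun q : ℝ × ℝ => F q.1 q.2) (Dom (2 * a))) :
    ContinuousOn (fun z : ℝ × ℝ => F (z.1 + α) z.2) (Icc 0 τ ×ˢ Icc (-a) a) :=
  ContinuousOn.comp (g := fun q : ℝ × ℝ => F q.1 q.2) (t := Dom (2 * a)) hF
    (by fun_prop : Continuous fun z : ℝ × ℝ => (z.1 + α, z.2)).continuousOn (maps ha hα)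

theorem abs_lt_of {a y : ℝ} (ha : 0 < a) (hy : y ∈ Icc (-a) a) : |y| < 2 * a := by
  rw [abs_lt]
  constructor <;> linarith [hy.1, hy.2]

theorem cl_shift {a α τ : ℝ} (ha : 0 < a) (hα : 0 < α) {f : ℝ → ℝ} {V Vt Vy : ℝ → ℝ → ℝ}
    (h : OddFlow a f V Vt Vy) : Cl a 0 τ (fun t => V (t + α)) (fun t => Vt (t + α))
      (fun t => Vy (t + α)) (fun t => Vt (t + α)) where
  c := shiftC ha hα h.smooth.continuousOn
  ct := shiftC ha hα (tcont h)
  cy := shiftC ha hα h.ycont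
  cyy := shiftC ha hα (tcont h)
  dt := fun t ht y hy =>
    HasDerivAt.comp_add_const t α (h.dt (t + α) y (by linarith [ht.1]) (abs_lt_of ha hy))
  dy := fun t ht y hy =>
    h.dy (t + α) y (by linarith [ht.1]) (abs_lt_of ha (Ioo_subset_Icc_self hy))
  dyy := fun t ht y hy =>
    h.dyy (t + α) y (by linarith [ht.1]) (abs_lt_of ha (Ioo_subset_Icc_self hy))
  wall := fun t ht => h.wall (t + α) (by linarith [ht.1])

theorem src_shift {a α τ : ℝ} (ha : 0 < a) (hα : 0 < α) {f : ℝ → ℝ} {V Vt Vy : ℝ → ℝ → ℝ}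
    (h : OddFlow a f V Vt Vy) : Src a τ (fun t => V (t + α)) (fun t => Vy (t + α))
      (fun t => Vt (t + α)) where
  c := shiftC ha hα h.smooth.continuousOn
  cy := shiftC ha hα h.ycont
  cyy := shiftC ha hα (tcont h)
  dy := fun t ht y hy =>
    h.dy (t + α) y (by linarith [ht.1]) (abs_lt_of ha (Ioo_subset_Icc_self hy))
  dyy := fun t ht y hy =>
    h.dyy (t + α) y (by linarith [ht.1]) (abs_lt_of ha (Ioo_subset_Icc_self hy))
  wall := fun t ht => h.wall (t + α) (by linarith [ht.1])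

theorem mapsB {a α β : ℝ} :
    MapsTo (fun z : ℝ × ℝ => (z.1 - α, z.2)) (Icc α β ×ˢ Icc (-a) a)
      (Icc 0 (β - α) ×ˢ Icc (-a) a) := by
  rintro ⟨t, y⟩ ⟨ht, hy⟩
  simp only [mem_Icc] at ht
  refine ⟨?_, hy⟩
  show 0 ≤ t - α ∧ t - α ≤ β - α
  constructor <;> linarith [ht.1, ht.2]

theorem backC {a α β : ℝ} {F : ℝ → ℝ → ℝ}
    (hF : ContinuousOn (fun q : ℝ × ℝ => F q.1 q.2) (Icc 0 (β - α) ×ˢ Icc (-a) a)) :
    ContinuousOn (fun z : ℝ × ℝ => F (z.1 - α) z.2) (Icc α β ×ˢ Icc (-a) a) :=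
  ContinuousOn.comp (g := fun q : ℝ × ℝ => F q.1 q.2) (t := Icc 0 (β - α) ×ˢ Icc (-a) a) hF
    (by fun_prop : Continuous fun z : ℝ × ℝ => (z.1 - α, z.2)).continuousOn mapsB

theorem memB {α β t : ℝ} (ht : t ∈ Icc α β) : t - α ∈ Icc 0 (β - α) :=
  ⟨by linarith [ht.1], by linarith [ht.2]⟩

theorem cl_back {a α β : ℝ} {q qt qy qyy : ℝ → ℝ → ℝ} (h : Cl a 0 (β - α) q qt qy qyy) :
    Cl a α β (fun t => q (t - α)) (fun t => qt (t - α)) (fun t => qy (t - α))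
      (fun t => qyy (t - α)) where
  c := backC h.c
  ct := backC h.ct
  cy := backC h.cy
  cyy := backC h.cyy
  dt := fun t ht y hy => HasDerivAt.comp_sub_const t α
    (h.dt (t - α) ⟨by linarith [ht.1], by linarith [ht.2]⟩ y hy)
  dy := fun t ht y hy => h.dy (t - α) (memB ht) y hy
  dyy := fun t ht y hy => h.dyy (t - α) (memB ht) y hy
  wall := fun t ht => h.wall (t - α) (memB ht)

theorem tFam (hI : Pool.Agent.H309.DF.Iter) : Pool.Agent.H309.DF.Fam := by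
  intro a α β ha hα hαβ f g V Vt Vy W Wt Wy hV hW
  obtain ⟨Q, Qt, Qy, Qyy, D, K, hQ⟩ := hI a (β - α) ha (by linarith) _ _ _ _ _ _
    (cl_shift (τ := β - α) ha hα hV) (src_shift (τ := β - α) ha hα hW)
  refine ⟨fun j t => Q j (t - α), fun j t => Qt j (t - α), fun j t => Qy j (t - α),
    fun j t => Qyy j (t - α), D, K, ?_⟩
  refine ⟨hQ.D0, hQ.K0, fun j => cl_back (hQ.cl j), ?_, ?_, ?_⟩
  · intro t ht y hy
    have h1 := hQ.start (t - α) (memB ht) y hy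
    simp only [sub_add_cancel] at h1
    exact h1
  · intro j t ht y hy
    have h1 := hQ.next j (t - α) (memB ht) y hy
    simp only [sub_add_cancel] at h1
    exact h1
  · intro j t ht y hy
    exact hQ.bd j (t - α) (memB ht) y hy

end Pool.Agent.H227.DF
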